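import Pool.Agent.H2.BlB

set_option autoImplicit false

namespace Pool.Agent.Results.MP_94b2f9_an.NoBlid

/-- For finite `p ≥ 1` that is not an even integer, real `ℓ_p` has no infinitely differentiable
bounded map that is the identity near `0`. -/
theorem result (p : ENNReal) [Fact (1 ≤ p)] (hp : p ≠ ⊤) (hev : ∀ k : ℕ, p ≠ 2 * (k : ENNReal)) :
    ¬ ∃ H : lp (fun _ : ℕ => ℝ) p → lp (fun _ : ℕ => ℝ) p,
      ContDiff ℝ ((⊤ : ℕ∞) : WithTop ℕ∞) H ∧ (∃ M : ℝ, ∀ x, ‖H x‖ ≤ M) ∧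
        ∃ U ∈ nhds (0 : lp (fun _ : ℕ => ℝ) p), ∀ x ∈ U, H x = x := by
  rintro ⟨H, hH, ⟨M, hM⟩, U, hU, hid⟩
  exact Pool.Agent.H2.BlB.main hp hev H hH M hM (Filter.mem_of_superset hU hid)

end Pool.Agent.Results.MP_94b2f9_an.NoBlid
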